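import Pool.Agent.Helper16.CE.M1
import Pool.Agent.Helper17.CE.FN
import Pool.Agent.Helper61.CE.NdCoEn

set_option autoImplicit false

namespace Pool.Agent.Results.MP_95af1f_mp.NegativeAnswer
open MeasureTheory FourierTransform
open scoped ENNReal

/-- `ℝᵈ` with the Euclidean norm -/
def Rd (d : ℕ) : Type := EuclideanSpace ℝ (Fin d)

noncomputable instance (d : ℕ) : Norm (Rd d) :=
  (inferInstance : Norm (EuclideanSpace ℝ (Fin d)))

/-- `ℝᵈ` carries Lebesgue measure, Mathlib's `volume` -/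
noncomputable instance (d : ℕ) : MeasureSpace (Rd d) :=
  (inferInstance : MeasureSpace (EuclideanSpace ℝ (Fin d)))

/-- `L²(ℝᵈ; ℂ)` -/
def L2 (d : ℕ) : Type := Lp ℂ 2 (volume : Measure (Rd d))

noncomputable instance (d : ℕ) : AddCommGroup (L2 d) :=
  (inferInstance : AddCommGroup (Lp ℂ 2 (volume : Measure (Rd d))))

noncomputable instance (d : ℕ) : Module ℂ (L2 d) :=
  (inferInstance : Module ℂ (Lp ℂ 2 (volume : Measure (Rd d))))

/-- the function `u` -/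
noncomputable def fn {d : ℕ} (u : L2 d) : Rd d → ℂ :=
  ((show Lp ℂ 2 (volume : Measure (Rd d)) from u) : Rd d → ℂ)

/-- the unitary Fourier transform on `L²(E)`, `û(ξ) = ∫ e^{-2πi x·ξ} u(x) dx` -/
noncomputable def fourierE (E : Type) [NormedAddCommGroup E] [InnerProductSpace ℝ E]
    [FiniteDimensional ℝ E] [MeasurableSpace E] [BorelSpace E]
    (u : Lp ℂ 2 (volume : Measure E)) : Lp ℂ 2 (volume : Measure E) := 𝓕 u

/-- the unitary Fourier transform on `L²(ℝᵈ)` -/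
noncomputable def fourier {d : ℕ} (u : L2 d) : L2 d := fourierE (EuclideanSpace ℝ (Fin d)) u

/-- the function `û` -/
noncomputable def hat {d : ℕ} (u : L2 d) : Rd d → ℂ := fn (fourier u)

/-- `u ∈ H¹(ℝᵈ)`: `|ξ| û ∈ L²` -/
def InH1 {d : ℕ} (u : L2 d) : Prop := MemLp (fun ξ : Rd d => (‖ξ‖ : ℂ) * hat u ξ) 2 volume

/-- `∫ ∇u · conj ∇φ = ∫ (2π|ξ|)² û conj φ̂` -/
noncomputable def dirichlet {d : ℕ} (u φ : L2 d) : ℂ :=
  ∫ ξ : Rd d, (((2 * Real.pi * ‖ξ‖) ^ 2 : ℝ) : ℂ) * hat u ξ * (starRingEnd ℂ) (hat φ ξ)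

/-- `V u conj φ` -/
noncomputable def potential {d : ℕ} (V : Rd d → ℂ) (u φ : L2 d) (x : Rd d) : ℂ :=
  V x * fn u x * (starRingEnd ℂ) (fn φ x)

/-- the inner product `∫ f conj φ` -/
noncomputable def pairing {d : ℕ} (f φ : L2 d) : ℂ := ∫ x, fn f x * (starRingEnd ℂ) (fn φ x)

/-- `u ∈ D(H)` and `H u = f`, where `H = -h²Δ + V` is the m-sectorial operator of the form
`h² ∫ ∇u · conj ∇φ + ∫ V u conj φ` on `H¹(ℝᵈ)` -/
def IsHu {d : ℕ} (h : ℝ) (V : Rd d → ℂ) (u f : L2 d) : Prop :=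
  InH1 u ∧ ∀ φ : L2 d, InH1 φ → Integrable (potential V u φ) volume ∧
    ((h ^ 2 : ℝ) : ℂ) * dirichlet u φ + ∫ x, potential V u φ x = pairing f φ

/-- `E` is an eigenvalue of `H = -h²Δ + V` -/
def IsEigenvalue {d : ℕ} (h : ℝ) (V : Rd d → ℂ) (E : ℂ) : Prop :=
  ∃ u : L2 d, u ≠ 0 ∧ IsHu h V u (E • u)

/-- `u` is a generalised eigenvector for `E` (or `0`): `(H - E)ⁿ u = 0` for some `n` -/
def IsGen {d : ℕ} (h : ℝ) (V : Rd d → ℂ) (E : ℂ) (u : L2 d) : Prop :=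
  ∃ (n : ℕ) (c : ℕ → L2 d), c 0 = u ∧ c n = 0 ∧ ∀ i < n, IsHu h V (c i) (c (i + 1) + E • c i)

/-- the generalised eigenspace of `E` -/
noncomputable def genSpace {d : ℕ} (h : ℝ) (V : Rd d → ℂ) (E : ℂ) : Submodule ℂ (L2 d) :=
  Submodule.span ℂ {u | IsGen h V E u}

/-- the algebraic multiplicity of `E`, an element of `ℕ ∪ {∞}` (`0` if `E` is not an eigenvalue) -/
noncomputable def algMult {d : ℕ} (h : ℝ) (V : Rd d → ℂ) (E : ℂ) : ℕ∞ :=
  Cardinal.toENat (Module.rank ℂ (genSpace h V E))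

/-- `δ(E)`, the distance from `E` to the half-line `[0,∞)` -/
noncomputable def delta (E : ℂ) : ℝ := Metric.infDist E {z : ℂ | 0 ≤ z.re ∧ z.im = 0}

/-- `|E|^{-σ} δ(E)^{γ+σ}` -/
noncomputable def term (γ σ : ℝ) (E : ℂ) : ℝ := ‖E‖ ^ (-σ) * delta E ^ (γ + σ)

/-- `∑_j |E_j|^{-σ} δ(E_j)^{γ+σ}` over the eigenvalues off `[0,∞)`, each `E` counted with its
algebraic multiplicity -/
noncomputable def eigSum {d : ℕ} (h : ℝ) (V : Rd d → ℂ) (γ σ : ℝ) : ℝ≥0∞ :=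
  ∑' E : {E : ℂ // 0 < delta E}, ((algMult h V E : ℕ∞) : ℝ≥0∞) * ENNReal.ofReal (term γ σ E)

/-- `∫ |V|^p` -/
noncomputable def cost {d : ℕ} (V : Rd d → ℂ) (p : ℝ) : ℝ := ∫ x, ‖V x‖ ^ p

/-- measurable, bounded, integrable, and in `L^p` -/
def Nice {d : ℕ} (V : Rd d → ℂ) (p : ℝ) : Prop :=
  Measurable V ∧ (∃ B : ℝ, ∀ x, ‖V x‖ ≤ B) ∧ Integrable V volume ∧
    MemLp V (ENNReal.ofReal p) volume

/-- the inequality `(*)` in dimension `d` with the constant `C`, for all `V` and all `h` -/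
def Holds (d : ℕ) (γ σ C : ℝ) : Prop :=
  ∀ (h : ℝ) (V : Rd d → ℂ), 0 < h → MemLp V (ENNReal.ofReal (γ + d / 2)) volume →
    eigSum h V γ σ ≤ ENNReal.ofReal (C * h ^ (-(d : ℝ)) * cost V (γ + d / 2))

theorem IsHu_of (V : Rd 3 → ℂ) (u f : L2 3) (hu : Helper16.CE.IsHu V u f) : IsHu 1 V u f := by
  refine ⟨hu.1, fun φ hφ => ⟨(hu.2 φ hφ).1, ?_⟩⟩
  have := (hu.2 φ hφ).2
  rw [one_pow, Complex.ofReal_one, one_mul]
  exact this

theorem three : (γ : ℝ) → γ + ((3 : ℕ) : ℝ) / 2 = γ + 3 / 2 := fun γ => by norm_num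

/-- For `d = 3` and all small `γ > 0` the bound `(*)` fails, whatever `σ` is: for every `C` there
is a bounded integrable potential with a finite set `s` of distinct eigenvalues off `[0,∞)` whose
sum exceeds `C ∫ |V|^{γ+3/2}`.  In particular there is no constant for `(*)`. -/
theorem result : ∃ γ₀ : ℝ, 0 < γ₀ ∧ ∀ γ σ : ℝ, 0 < γ → γ ≤ γ₀ →
    (∀ C : ℝ, ∃ V : Rd 3 → ℂ, Nice V (γ + 3 / 2) ∧
      ∃ s : Finset ℂ, (∀ E ∈ s, 0 < delta E ∧ IsEigenvalue 1 V E) ∧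
        C * cost V (γ + 3 / 2) < ∑ E ∈ s, term γ σ E) ∧
    ¬ ∃ C : ℝ, Holds 3 γ σ C := by
  obtain ⟨D⟩ := Helper16.CE.exists_Dat
  obtain ⟨γ₀, hγ₀, H⟩ := Helper61.CE.endgame (Helper17.CE.key_of_main D D.main1)
  refine ⟨γ₀, hγ₀, ?_⟩
  intro γ σ hγ hγγ
  have H1 : ∀ C : ℝ, ∃ V : Rd 3 → ℂ, Nice V (γ + 3 / 2) ∧
      ∃ s : Finset ℂ, (∀ E ∈ s, 0 < delta E ∧ IsEigenvalue 1 V E) ∧
        C * cost V (γ + 3 / 2) < ∑ E ∈ s, term γ σ E := by
    intro C
    obtain ⟨V, h1, h2, h3, h4, s, h5, h6⟩ := H γ σ C hγ hγγ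
    refine ⟨V, ⟨h1, h2, h3, h4⟩, s, fun E hE => ⟨(h5 E hE).1, ?_⟩, h6⟩
    obtain ⟨u, hu, hu2⟩ := (h5 E hE).2
    exact ⟨u, hu, IsHu_of V u _ hu2⟩
  refine ⟨H1, ?_⟩
  rintro ⟨C, hC⟩
  obtain ⟨V, ⟨h1, h2, h3, h4⟩, s, h5, h6⟩ := H1 (max C 0)
  have h7 := hC 1 V one_pos (by rw [three]; exact h4)
  rw [three] at h7
  have hI : 0 ≤ cost V (γ + 3 / 2) :=
    integral_nonneg fun x => Real.rpow_nonneg (norm_nonneg _) _
  have h8 : ENNReal.ofReal (∑ E ∈ s, term γ σ E) ≤ eigSum 1 V γ σ := by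
    unfold eigSum
    have hnn : ∀ E ∈ s, 0 ≤ term γ σ E := fun E hE =>
      mul_nonneg (Real.rpow_nonneg (norm_nonneg _) _) (Real.rpow_nonneg (h5 E hE).1.le _)
    rw [ENNReal.ofReal_sum_of_nonneg hnn]
    have h9 : ∑ E ∈ s, ENNReal.ofReal (term γ σ E) =
        ∑ E : {E // E ∈ s}, ENNReal.ofReal (term γ σ E.1) :=
      (Finset.sum_coe_sort s _).symm
    rw [h9]
    set ι : {E // E ∈ s} → {E : ℂ // 0 < delta E} := fun E => ⟨E.1, (h5 E.1 E.2).1⟩ with hι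
    have hinj : Function.Injective ι := by
      intro a b hab
      apply Subtype.ext
      have := congrArg Subtype.val hab
      exact this
    calc ∑ E : {E // E ∈ s}, ENNReal.ofReal (term γ σ E.1)
        = ∑' E : {E // E ∈ s}, ENNReal.ofReal (term γ σ E.1) := (tsum_fintype _).symm
      _ ≤ ∑' E : {E // E ∈ s}, ((algMult 1 V (ι E).1 : ℕ∞) : ℝ≥0∞) *
            ENNReal.ofReal (term γ σ (ι E).1) := by
          refine ENNReal.tsum_le_tsum fun E => ?_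
          obtain ⟨-, u, hu, hu2⟩ := h5 E.1 E.2
          have hmem : u ∈ genSpace 1 V (ι E).1 := by
            apply Submodule.subset_span
            refine ⟨1, fun i => if i = 0 then u else 0, by simp, by simp, ?_⟩
            intro i hi
            have : i = 0 := by omega
            subst this
            simpa using hu2
          have hrank : 1 ≤ Module.rank ℂ (genSpace 1 V (ι E).1) := by
            rw [Cardinal.one_le_iff_ne_zero, ne_eq, rank_zero_iff, not_subsingleton_iff_nontrivial]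
            exact ⟨⟨⟨u, hmem⟩, 0, fun h => hu (congrArg Subtype.val h)⟩⟩
          have hone : (1 : ℝ≥0∞) ≤ ((algMult 1 V (ι E).1 : ℕ∞) : ℝ≥0∞) := by
            have : (1 : ℕ∞) ≤ algMult 1 V (ι E).1 := by
              unfold algMult
              have := Cardinal.toENat.monotone' hrank
              simpa using this
            exact_mod_cast this
          calc ENNReal.ofReal (term γ σ E.1)
              = 1 * ENNReal.ofReal (term γ σ E.1) := (one_mul _).symm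
            _ ≤ _ := by gcongr
      _ ≤ _ := ENNReal.tsum_comp_le_tsum_of_injective hinj _
  have h10 := h8.trans h7
  have h11 : C * 1 ^ (-((3 : ℕ) : ℝ)) * cost V (γ + 3 / 2) ≤ max C 0 * cost V (γ + 3 / 2) := by
    rw [Real.one_rpow, mul_one]
    exact mul_le_mul_of_nonneg_right (le_max_left _ _) hI
  have h12 := h10.trans (ENNReal.ofReal_le_ofReal h11)
  rw [ENNReal.ofReal_le_ofReal_iff (mul_nonneg (le_max_right _ _) hI)] at h12
  exact absurd h6 (not_lt.2 h12)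

end Pool.Agent.Results.MP_95af1f_mp.NegativeAnswer
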